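import Mathlib
import Pool.Agent.MP_79e3be_pr.Bridge
import Pool.Agent.MP_79e3be_pr.Main

set_option autoImplicit false

namespace Pool.Agent.Results.MP_79e3be_pr.SmallerSide

open Pool.Agent.MP_79e3be_pr

/-- On the complete bipartite graph with parts of sizes `a > b ≥ 1`, randomized zero forcing is
strictly faster in expectation from a vertex of the smaller part. -/
theorem result (a b : ℕ) (hb : 1 ≤ b) (hab : b < a) (c : ℝ) (hc : 0 < c) (u : Fin a) (v : Fin b) :
    ept (bip a b c) {Sum.inr v} < ept (bip a b c) {Sum.inl u} := by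
  have e1 : ({Sum.inr v} : Finset (Fin a ⊕ Fin b)).toLeft = ∅ := by ext; simp
  have e2 : ({Sum.inr v} : Finset (Fin a ⊕ Fin b)).toRight = {v} := by ext; simp
  have e3 : ({Sum.inl u} : Finset (Fin a ⊕ Fin b)).toLeft = {u} := by ext; simp
  have e4 : ({Sum.inl u} : Finset (Fin a ⊕ Fin b)).toRight = ∅ := by ext; simp
  rw [ept_bip hc (by omega) hb _ (by simp [e1, e2]), ept_bip hc (by omega) hb _ (by simp [e3, e4]),
    e1, e2, e3, e4]
  exact (ENNReal.ofReal_lt_ofReal_iff_of_nonneg
    (tsum_nonneg fun t => vv_nonneg a b t _ _)).2 (VV_lt hb hab)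

end Pool.Agent.Results.MP_79e3be_pr.SmallerSide
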